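import Pool.Agent.H74.OneP.UStmts

/-! Module U10: the skeleton of a complex is a base drawing. -/

namespace Pool.Agent.H74.OneP

open Equiv Equiv.Perm Drawing

namespace U10

variable {Q : PM} (hE : Q.skel.Exact)

theorem nxt_side (b : Q.C × Fin 4) :
    (Q.skel.toDrawing hE).nxt (Sum.inl (Sum.inl b)) = Sum.inr (Sum.inl (b.1, b.2 + 1)) := by
  have h : Q.nx.symm (Sum.inl (b.1, b.2 + 1)) = Sum.inl b := (Equiv.symm_apply_eq _).2 rfl
  have h2 : Q.skRot (Sum.inr (Sum.inl (b.1, b.2 + 1))) = Sum.inl (Q.gl (Sum.inl b)) := by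
    rw [← h]; rfl
  change Q.skRot⁻¹ (Sum.inl (Q.gl (Sum.inl b))) = _
  exact Equiv.Perm.inv_eq_iff_eq.2 h2.symm

theorem nxt_arm (a : Q.C × Fin 4) :
    (Q.skel.toDrawing hE).nxt (Sum.inr (Sum.inl a)) = Sum.inr (Sum.inr (a.1, a.2 - 1)) := rfl

theorem nxt_back (a : Q.C × Fin 4) :
    (Q.skel.toDrawing hE).nxt (Sum.inr (Sum.inr a)) = Sum.inl (Sum.inl a) := rfl

theorem rev_side (e : Q.E) :
    (Q.skel.toDrawing hE).rev (Sum.inl e) = Sum.inl (Q.gl e) := rfl

theorem not_cr_side (e : Q.E) : ¬ (Q.skel.toDrawing hE).cr (Sum.inl e) := by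
  rintro ⟨x, hx⟩
  have h : (Sum.inl (Q.st e) : Q.V ⊕ Q.C) = Sum.inr x := hx
  cases h

theorem cr_back (a : Q.C × Fin 4) : (Q.skel.toDrawing hE).cr (Sum.inr (Sum.inr a)) :=
  ⟨a.1, rfl⟩

theorem gs_of {k : (Q.skel.toDrawing hE).D} {b : Q.C × Fin 4}
    (hk : (Q.skel.toDrawing hE).rev k = Sum.inl (Sum.inl b)) : gs k := by
  right
  rw [hk, nxt_side, nxt_arm]
  refine ⟨not_cr_side hE _, cr_back hE (b.1, b.2 + 1), ?_⟩
  have : ((b.1, b.2 + 1 - 1) : Q.C × Fin 4) = b := by
    rw [add_sub_cancel_right]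
  change (Q.skel.toDrawing hE).nxt (Sum.inr (Sum.inr ((b.1, b.2 + 1 - 1) : Q.C × Fin 4))) = _
  rw [nxt_back, this]

end U10

open U10 in
theorem u10 (h1 : ExactStmt) (h2 : SkelValidStmt) (h3 : SkelGoodStmt) : SkelBaseStmt := by
  rintro c v l t hv ⟨Q, hN, hC, hV, hT, hL⟩
  have hE : Q.skel.Exact := h1 _ (h2 Q hN)
  have hG := h3 Q hN (by rw [hV]; exact hv) hE
  have := Q.finC
  have := Q.finT
  obtain ⟨n, ⟨idx⟩⟩ := Finite.exists_equiv_fin (Q.C × Fin 4)
  refine ⟨Q.skel.toDrawing hE, hG, hC, hV,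
    {d | ∃ a b, d = Sum.inl (Sum.inl a) ∧ Q.gl (Sum.inl a) = Sum.inl b ∧ idx a < idx b},
    Set.range (Sum.inr : Q.T → (Q.C × Fin 4) ⊕ Q.T), ?_, ?_, ?_, ?_⟩
  · rintro d ⟨a, b, rfl, hab, hlt⟩
    have hba : Q.gl (Sum.inl b) = Sum.inl a := by rw [← hab, Q.gl_gl]
    have hr : (Q.skel.toDrawing hE).rev (Sum.inl (Sum.inl a)) = Sum.inl (Sum.inl b) := by
      rw [rev_side, hab]
    have hr' : (Q.skel.toDrawing hE).rev (Sum.inl (Sum.inl b)) = Sum.inl (Sum.inl a) := by
      rw [rev_side, hba]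
    refine ⟨⟨not_cr_side hE _, ?_, gs_of hE hr, ?_⟩, ?_⟩
    · rw [hr]; exact not_cr_side hE _
    · rw [hr]; exact gs_of hE hr'
    · rw [hr]
      rintro ⟨a', b', h, hab', hlt'⟩
      have h' : b = a' := Sum.inl.inj (Sum.inl.inj h)
      subst h'
      have h'' : a = b' := by
        have := hba.symm.trans hab'
        exact Sum.inl.inj this
      subst h''
      exact absurd hlt (not_lt.2 hlt'.le)
  · rintro f ⟨τ, rfl⟩
    obtain ⟨r, rfl⟩ := hN.pol_surj τ
    have e1 : Q.pol (Q.nxR r) = Q.pol r := hN.pol_nx r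
    have e2 : Q.pol (Q.nxR (Q.nxR r)) = Q.pol r := (hN.pol_nx _).trans e1
    have n1 : r ≠ Q.nxR r := (hN.plain3 r).1.symm
    have n2 : r ≠ Q.nxR (Q.nxR r) := (hN.plain3 r).2.symm
    have n3 : Q.nxR r ≠ Q.nxR (Q.nxR r) := (hN.plain3 (Q.nxR r)).1.symm
    refine ⟨⟨Sum.inl (Sum.inr r), Sum.inl (Sum.inr (Q.nxR r)),
      Sum.inl (Sum.inr (Q.nxR (Q.nxR r))), not_cr_side hE _, not_cr_side hE _, not_cr_side hE _,
      rfl, congrArg Sum.inr e1, congrArg Sum.inr e2, ?_, ?_, ?_⟩, ?_⟩
    · intro h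
      exact (hN.clique _ _ e1.symm n1).1 (Sum.inl.inj h)
    · intro h
      exact (hN.clique _ _ e2.symm n2).1 (Sum.inl.inj h)
    · intro h
      exact (hN.clique _ _ (e1.trans e2.symm) n3).1 (Sum.inl.inj h)
    · intro k hk _ _
      match k, hk with
      | .inl (.inl a), hk =>
        have h : (Sum.inl a : (Q.C × Fin 4) ⊕ Q.T) = Sum.inr (Q.pol r) := hk
        cases h
      | .inl (.inr r'), _ =>
        obtain ⟨b, hb⟩ := hN.plain r'
        exact gs_of hE (b := b) (by rw [rev_side, hb])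
      | .inr (.inl a), hk =>
        have h : (Sum.inl (a.1, a.2 - 1) : (Q.C × Fin 4) ⊕ Q.T) = Sum.inr (Q.pol r) := hk
        cases h
      | .inr (.inr a), hk =>
        have h : (Sum.inl a : (Q.C × Fin 4) ⊕ Q.T) = Sum.inr (Q.pol r) := hk
        cases h
  · -- counting
    classical
    have hfin : Finite {a : Q.C × Fin 4 // ∃ b, Q.gl (Sum.inl a) = Sum.inl b} := Subtype.finite
    let P := {a : Q.C × Fin 4 // ∃ b, Q.gl (Sum.inl a) = Sum.inl b}
    let S : Type := {a : Q.C × Fin 4 // ∃ b, Q.gl (Sum.inl a) = Sum.inl b ∧ idx a < idx b}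
    have hne : ∀ a b, Q.gl (Sum.inl a) = Sum.inl b → a ≠ b := by
      intro a b h hab
      subst hab
      exact hN.gl_ne _ h
    -- equivalence S + S ≃ P
    have key : Nat.card P = 2 * Nat.card S := by
      let f : S ⊕ S → P := Sum.elim (fun s => ⟨s.1, s.2.choose, s.2.choose_spec.1⟩)
        (fun s => ⟨s.2.choose, s.1, by rw [← s.2.choose_spec.1, Q.gl_gl]⟩)
      have hf : Function.Bijective f := by
        constructor
        · rintro (s | s) (s' | s') h
          · have := congrArg Subtype.val h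
            exact congrArg Sum.inl (Subtype.ext this)
          · exfalso
            have h1 : s.1 = s'.2.choose := congrArg Subtype.val h
            have h2 := s.2.choose_spec
            have h3 := s'.2.choose_spec
            have h4 : Q.gl (Sum.inl s.1) = Sum.inl s'.1 := by
              rw [h1, ← h3.1, Q.gl_gl]
            have h5 : s.2.choose = s'.1 := Sum.inl.inj (h2.1.symm.trans h4)
            have h6 := h2.2
            rw [h5, h1] at h6
            exact absurd h6 (not_lt.2 h3.2.le)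
          · exfalso
            have h1 : s.2.choose = s'.1 := congrArg Subtype.val h
            have h2 := s.2.choose_spec
            have h3 := s'.2.choose_spec
            have h4 : Q.gl (Sum.inl s'.1) = Sum.inl s.1 := by
              rw [← h1, ← h2.1, Q.gl_gl]
            have h5 : s'.2.choose = s.1 := Sum.inl.inj (h3.1.symm.trans h4)
            have h6 := h3.2
            rw [h5, ← h1] at h6
            exact absurd h6 (not_lt.2 h2.2.le)
          · have h1 : s.2.choose = s'.2.choose := congrArg Subtype.val h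
            have h2 := s.2.choose_spec
            have h3 := s'.2.choose_spec
            have h4 : (Sum.inl s.1 : Q.E) = Sum.inl s'.1 := by
              rw [← Q.gl_gl (Sum.inl s.1), ← Q.gl_gl (Sum.inl s'.1), h2.1, h3.1, h1]
            exact congrArg Sum.inr (Subtype.ext (Sum.inl.inj h4))
        · rintro ⟨a, b, hab⟩
          have hba : Q.gl (Sum.inl b) = Sum.inl a := by rw [← hab, Q.gl_gl]
          rcases lt_trichotomy (idx a) (idx b) with h | h | h
          · exact ⟨Sum.inl ⟨a, b, hab, h⟩, rfl⟩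
          · exact absurd (idx.injective h) (hne a b hab)
          · refine ⟨Sum.inr ⟨b, a, hba, h⟩, ?_⟩
            apply Subtype.ext
            have hs : ∃ b', Q.gl (Sum.inl b) = Sum.inl b' ∧ idx b < idx b' := ⟨a, hba, h⟩
            have := hs.choose_spec.1
            exact Sum.inl.inj (this.symm.trans hba)
      have h1 := Nat.card_congr (Equiv.ofBijective f hf)
      have : Finite S := Subtype.finite
      rw [Nat.card_sum] at h1
      omega
    have hS : Nat.card S = l := by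
      have : Nat.card P = 2 * l := hL
      omega
    rw [← hS]
    symm
    apply Nat.card_congr
    refine Equiv.ofBijective (fun s : S => ⟨Sum.inl (Sum.inl s.1), ?_⟩) ⟨?_, ?_⟩
    · obtain ⟨b, hb⟩ := s.2
      exact ⟨s.1, b, rfl, hb⟩
    · intro s s' h
      have h1 := congrArg Subtype.val h
      exact Subtype.ext (Sum.inl.inj (Sum.inl.inj h1))
    · rintro ⟨d, a, b, rfl, hab, hlt⟩
      exact ⟨⟨a, b, hab, hlt⟩, rfl⟩
  · rw [← hT]
    exact Nat.card_range_of_injective Sum.inr_injective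

end Pool.Agent.H74.OneP
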